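import Pool.Agent.DJC.Prop
import Pool.Agent.DJC.Tra
import Pool.Agent.DJC.CntP
import Pool.Agent.DJC.Sec
import Pool.Agent.DJC.ColB
import Pool.Agent.DJC.Ex

set_option autoImplicit false

open scoped LinearAlgebra.Projectivization MatrixGroups
open Pool.Agent.DJC

namespace Pool.Agent.Results.MP_837a86_co.DisjointCopies

/-- Let `F` be a finite field with `r ^ 3` elements (so `r` is a prime power; `r = p` prime is the
question).  Some projectivity of `PG(2, F)` moves the point set
`B = {(1, x, x ^ r)} ∪ {(0, 1, y) : y ^ (r ^ 2 + r + 1) = 1}` off itself, and the proportion of such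
projectivities in `PGL(3, F)` is at least `(r - 5) / (3 r)`. -/
theorem result (r : ℕ) (F : Type) [Field F] [Finite F] (hF : Nat.card F = r ^ 3) :
    (∃ γ : PGL(3, F), ∀ P ∈ blockingSet r F, γ • P ∉ blockingSet r F) ∧
    ((r : ℝ) - 5) / (3 * r) ≤
      (Nat.card {γ : PGL(3, F) // ∀ P ∈ blockingSet r F, γ • P ∉ blockingSet r F} : ℝ) /
        Nat.card (PGL(3, F)) := by
  have hr0 : IsPrimePow r := by
    have : Fintype F := Fintype.ofFinite F
    have h := FiniteField.isPrimePow_card F
    rw [← Nat.card_eq_fintype_card, hF] at h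
    exact (isPrimePow_pow_iff (by norm_num)).1 h
  have hr2 : 2 ≤ r := hr0.two_le
  refine ⟨thm_Ex F r hr2 hF, ?_⟩
  rcases Nat.lt_or_ge r 6 with h | h
  · refine le_trans ?_ (div_nonneg (Nat.cast_nonneg _) (Nat.cast_nonneg _))
    apply div_nonpos_of_nonpos_of_nonneg
    · have : (r : ℝ) ≤ 5 := by exact_mod_cast Nat.lt_succ_iff.1 h
      linarith
    · positivity
  · have h7 : 7 ≤ r := by
      rcases Nat.lt_or_ge 6 r with h' | h'
      · exact h'
      · have h6 : r = 6 := le_antisymm h' h
        subst h6
        exfalso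
        rw [isPrimePow_nat_iff] at hr0
        obtain ⟨p, k, hp, hk, hpk⟩ := hr0
        have h2 : p = 2 := by
          have : 2 ∣ p ^ k := by rw [hpk]; norm_num
          exact ((Nat.prime_dvd_prime_iff_eq Nat.prime_two hp).1
            (Nat.prime_two.dvd_of_dvd_pow this)).symm
        have h3 : p = 3 := by
          have : 3 ∣ p ^ k := by rw [hpk]; norm_num
          exact ((Nat.prime_dvd_prime_iff_eq Nat.prime_three hp).1
            (Nat.prime_three.dvd_of_dvd_pow this)).symm
        omega
    exact proportion thm_Tri thm_Inv thm_Col thm_Pair thm_Cnt thm_K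
      (thm_ColB thm_K thm_AA thm_AI thm_II) r h7 hF

end Pool.Agent.Results.MP_837a86_co.DisjointCopies
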